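import Pool.Agent.E8helper32.SQ.Stm

/-!
# SQ, piece MOB: functions with the same Schwarzian derivative

`P = f''/f' - 2 μ f'/u`, `u = 1 + μ (f - f(z))`, is the logarithmic derivative of
`H = λ f' / u²`; with `q = g''/g'` and `D = P - q` one has `D' = (P + q) D / 2`, so that
`D² / (H g')` is constant; `μ` is chosen such that `D(z) = 0`.
-/

set_option autoImplicit false

open Complex MeasureTheory Metric Set Filter Topology

namespace Pool.Agent.E8helper38.SQ

open Pool.Agent.E8helper32.SQ

/-- a function with zero derivative in a ball is constant -/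
lemma const_ball {K : ℂ → ℂ} {z : ℂ} {ε : ℝ}
    (h : ∀ w ∈ ball z ε, HasDerivAt K 0 w) : ∀ w ∈ ball z ε, K w = K z := by
  intro w hw
  have hz : z ∈ ball z ε := mem_ball_self (pos_of_mem_ball hw)
  refine (convex_ball z ε).is_const_of_fderivWithin_eq_zero (𝕜 := ℂ) (f := K) ?_ ?_ hw hz
  · intro x hx
    exact (h x hx).differentiableAt.differentiableWithinAt
  · intro x hx
    rw [fderivWithin_of_isOpen isOpen_ball hx]
    have h1 := (h x hx).hasFDerivAt.fderiv
    rw [h1]
    ext
    simp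

theorem mob : S_MOB := by
  intro f g z hf hg hf0 hg0 hS
  obtain ⟨f0, hff0⟩ : ∃ f0, f0 = f z := ⟨_, rfl⟩
  obtain ⟨μ, hμ⟩ : ∃ μ : ℂ, μ = (deriv (deriv f) z / deriv f z - deriv (deriv g) z / deriv g z) /
    (2 * deriv f z) := ⟨_, rfl⟩
  obtain ⟨lam, hlam⟩ : ∃ lam : ℂ, lam = deriv g z / deriv f z := ⟨_, rfl⟩
  have hlam0 : lam ≠ 0 := by
    rw [hlam]
    exact div_ne_zero hg0 hf0
  -- a ball where everything is defined
  have e1 : ∀ᶠ w in 𝓝 z, AnalyticAt ℂ f w := hf.eventually_analyticAt
  have e2 : ∀ᶠ w in 𝓝 z, AnalyticAt ℂ g w := hg.eventually_analyticAt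
  have e3 : ∀ᶠ w in 𝓝 z, deriv f w ≠ 0 := hf.deriv.continuousAt.eventually_ne hf0
  have e4 : ∀ᶠ w in 𝓝 z, deriv g w ≠ 0 := hg.deriv.continuousAt.eventually_ne hg0
  have e5 : ∀ᶠ w in 𝓝 z, 1 + μ * (f w - f0) ≠ 0 := by
    have h1 : ContinuousAt (fun w => 1 + μ * (f w - f0)) z :=
      continuousAt_const.add (continuousAt_const.mul (hf.continuousAt.sub continuousAt_const))
    refine h1.eventually_ne ?_
    simp only [hff0, sub_self, mul_zero, add_zero]
    exact one_ne_zero
  obtain ⟨ε, hε, hB⟩ := Metric.eventually_nhds_iff_ball.1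
    (e1.and (e2.and (e3.and (e4.and (e5.and hS)))))
  have hz : z ∈ ball z ε := mem_ball_self hε
  -- derivatives
  have f1 : ∀ w ∈ ball z ε, HasDerivAt f (deriv f w) w := fun w hw =>
    (hB w hw).1.differentiableAt.hasDerivAt
  have f2 : ∀ w ∈ ball z ε, HasDerivAt (deriv f) (deriv (deriv f) w) w := fun w hw =>
    (hB w hw).1.deriv.differentiableAt.hasDerivAt
  have f3 : ∀ w ∈ ball z ε, HasDerivAt (deriv (deriv f)) (deriv (deriv (deriv f)) w) w :=
    fun w hw => (hB w hw).1.deriv.deriv.differentiableAt.hasDerivAt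
  have g1 : ∀ w ∈ ball z ε, HasDerivAt g (deriv g w) w := fun w hw =>
    (hB w hw).2.1.differentiableAt.hasDerivAt
  have g2 : ∀ w ∈ ball z ε, HasDerivAt (deriv g) (deriv (deriv g) w) w := fun w hw =>
    (hB w hw).2.1.deriv.differentiableAt.hasDerivAt
  have g3 : ∀ w ∈ ball z ε, HasDerivAt (deriv (deriv g)) (deriv (deriv (deriv g)) w) w :=
    fun w hw => (hB w hw).2.1.deriv.deriv.differentiableAt.hasDerivAt
  have nf : ∀ w ∈ ball z ε, deriv f w ≠ 0 := fun w hw => (hB w hw).2.2.1
  have ng : ∀ w ∈ ball z ε, deriv g w ≠ 0 := fun w hw => (hB w hw).2.2.2.1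
  have nu : ∀ w ∈ ball z ε, 1 + μ * (f w - f0) ≠ 0 := fun w hw => (hB w hw).2.2.2.2.1
  have sw : ∀ w ∈ ball z ε, Sw f w = Sw g w := fun w hw => (hB w hw).2.2.2.2.2
  -- the auxiliary functions
  obtain ⟨u, hu⟩ : ∃ u : ℂ → ℂ, u = fun w => 1 + μ * (f w - f0) := ⟨_, rfl⟩
  have nu' : ∀ w ∈ ball z ε, u w ≠ 0 := by
    rw [hu]
    exact nu
  have u1 : ∀ w ∈ ball z ε, HasDerivAt u (μ * deriv f w) w := by
    intro w hw
    rw [hu]
    exact (((f1 w hw).sub_const f0).const_mul μ).const_add 1
  have huz : u z = 1 := by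
    rw [hu, hff0]
    simp
  obtain ⟨P, hP⟩ : ∃ P : ℂ → ℂ, P = fun w => deriv (deriv f) w / deriv f w -
    2 * μ * deriv f w / u w := ⟨_, rfl⟩
  obtain ⟨q, hq⟩ : ∃ q : ℂ → ℂ, q = fun w => deriv (deriv g) w / deriv g w := ⟨_, rfl⟩
  obtain ⟨H, hH⟩ : ∃ H : ℂ → ℂ, H = fun w => lam * deriv f w / u w ^ 2 := ⟨_, rfl⟩
  have nH : ∀ w ∈ ball z ε, H w ≠ 0 := by
    intro w hw
    rw [hH]
    exact div_ne_zero (mul_ne_zero hlam0 (nf w hw)) (pow_ne_zero _ (nu' w hw))
  have H1 : ∀ w ∈ ball z ε, HasDerivAt H (P w * H w) w := by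
    intro w hw
    have h1 := ((f2 w hw).const_mul lam).div ((u1 w hw).pow 2) (pow_ne_zero 2 (nu' w hw))
    have h2 := nu' w hw
    have h3 := nf w hw
    rw [hH]
    refine h1.congr_deriv ?_
    rw [hP]
    simp only [Pi.pow_apply]
    field_simp
    push_cast
    ring
  have hD : ∀ w ∈ ball z ε, HasDerivAt (fun w => P w - q w)
      ((P w + q w) / 2 * (P w - q w)) w := by
    intro w hw
    have h1 := (((f3 w hw).div (f2 w hw) (nf w hw)).sub
      (((f2 w hw).const_mul (2 * μ)).div (u1 w hw) (nu' w hw))).sub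
        ((g3 w hw).div (g2 w hw) (ng w hw))
    have h2 := nu' w hw
    have h3 := nf w hw
    have h4 := ng w hw
    have h5 := sw w hw
    unfold Sw at h5
    rw [hP, hq]
    refine h1.congr_deriv ?_
    simp only
    field_simp at h5 ⊢
    linear_combination ((u w) ^ 2) * h5
  have hDz : P z - q z = 0 := by
    rw [hP, hq]
    simp only
    rw [huz, hμ]
    field_simp
    ring
  -- `D² / (H g')` is constant
  have hK : ∀ w ∈ ball z ε, HasDerivAt (fun w => (P w - q w) ^ 2 / (H w * deriv g w)) 0 w := by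
    intro w hw
    have h1 := ((hD w hw).pow 2).div ((H1 w hw).mul (g2 w hw))
      (mul_ne_zero (nH w hw) (ng w hw))
    have h2 := nH w hw
    have h3 := ng w hw
    have h4 : deriv (deriv g) w = q w * deriv g w := by
      rw [hq]
      simp only
      rw [div_mul_cancel₀ _ h3]
    refine h1.congr_deriv ?_
    rw [h4]
    simp only [Pi.mul_apply, Pi.pow_apply]
    field_simp
    push_cast
    ring
  have hPq : ∀ w ∈ ball z ε, P w = q w := by
    intro w hw
    have h1 := const_ball hK w hw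
    beta_reduce at h1
    rw [hDz, zero_pow two_ne_zero, zero_div, div_eq_zero_iff] at h1
    rcases h1 with h1 | h1
    · exact sub_eq_zero.1 ((pow_eq_zero_iff two_ne_zero).1 h1)
    · exact absurd h1 (mul_ne_zero (nH w hw) (ng w hw))
  -- `H = g'`
  have hL : ∀ w ∈ ball z ε, HasDerivAt (fun w => H w / deriv g w) 0 w := by
    intro w hw
    have h1 := (H1 w hw).div (g2 w hw) (ng w hw)
    have h3 := ng w hw
    have h4 : deriv (deriv g) w = P w * deriv g w := by
      rw [hPq w hw, hq]
      simp only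
      rw [div_mul_cancel₀ _ h3]
    refine h1.congr_deriv ?_
    rw [h4]
    field_simp
    ring
  have hHg : ∀ w ∈ ball z ε, H w = deriv g w := by
    intro w hw
    have h1 := const_ball hL w hw
    beta_reduce at h1
    have h2 : H z / deriv g z = 1 := by
      rw [hH]
      simp only
      rw [huz, hlam]
      field_simp
    rw [h2, div_eq_one_iff_eq (ng w hw)] at h1
    exact h1
  have hM : ∀ w ∈ ball z ε, HasDerivAt (fun w => lam * (f w - f0) / u w - g w) 0 w := by
    intro w hw
    have h1 := ((((f1 w hw).sub_const f0).const_mul lam).div (u1 w hw) (nu' w hw)).sub (g1 w hw)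
    have h2 := nu' w hw
    have h3 := hHg w hw
    rw [hH] at h3
    simp only at h3
    refine h1.congr_deriv ?_
    rw [← h3]
    have h4 : f w - f0 = (f w - f0) := rfl
    have h5 : u w = 1 + μ * (f w - f0) := by rw [hu]
    field_simp
    rw [h5]
    ring
  refine ⟨g z * μ + lam, g z * (1 - μ * f0) - lam * f0, μ, 1 - μ * f0, ?_, ?_⟩
  · have h1 : (g z * μ + lam) * (1 - μ * f0) - (g z * (1 - μ * f0) - lam * f0) * μ = lam := by
      ring
    rw [h1]
    exact hlam0
  · filter_upwards [isOpen_ball.mem_nhds hz] with w hw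
    have h5 : u w = 1 + μ * (f w - f0) := by rw [hu]
    have h2 := nu' w hw
    have h1 := const_ball hM w hw
    beta_reduce at h1
    rw [huz] at h1
    have h6 : f z - f0 = 0 := by rw [hff0, sub_self]
    rw [h6] at h1
    constructor
    · rw [h5] at h2
      intro h
      apply h2
      linear_combination h
    · have h7 : lam * (f w - f0) = (g w - g z) * u w := by
        have h8 : lam * (f w - f0) / u w = g w - g z := by linear_combination h1
        rw [← h8]
        field_simp
      rw [h5] at h7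
      linear_combination -h7

end Pool.Agent.E8helper38.SQ
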