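import Pool.Agent.E8helper32.SQ.Stm

/-!
# SQ, piece ODE: functions with a given Schwarzian derivative

`u'' = -(Q/2) u`, `u(y) = 1`, by power series; `f' = 1 / u²`.
-/

set_option autoImplicit false

open Complex MeasureTheory Metric Set Filter Topology

namespace Pool.Agent.E8helper38.SQ

open Pool.Agent.E8helper32.SQ

/-- coefficients of the solution of `u'' = -(Q/2) u` -/
noncomputable def co (q : ℕ → ℂ) : ℕ → ℂ
  | 0 => 1
  | 1 => 0
  | (n + 2) => -(1 / 2) / ((n + 2) * (n + 1)) * ∑ k : Fin (n + 1), q k * co q (n - k)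
decreasing_by omega

lemma co_zero (q : ℕ → ℂ) : co q 0 = 1 := by rw [co]
lemma co_one (q : ℕ → ℂ) : co q 1 = 0 := by rw [co]
lemma co_two (q : ℕ → ℂ) (n : ℕ) : co q (n + 2) =
    -(1 / 2) / ((n + 2) * (n + 1)) * ∑ k ∈ Finset.range (n + 1), q k * co q (n - k) := by
  rw [co, Finset.sum_range]

lemma co_bound {q : ℕ → ℂ} {C R S : ℝ} (hC : 0 < C) (hR : 0 < R)
    (hq : ∀ k, ‖q k‖ ≤ C * R ^ k) (hS1 : 1 ≤ S) (hSR : R ≤ S) (hSC : C ≤ S) :
    ∀ n, ‖co q n‖ ≤ S ^ n := by
  intro n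
  induction n using Nat.strong_induction_on with
  | _ n ih =>
    match n with
    | 0 => rw [co_zero]; simp
    | 1 => rw [co_one]; simp; linarith
    | n + 2 =>
      rw [co_two, norm_mul]
      have h1 : ‖∑ k ∈ Finset.range (n + 1), q k * co q (n - k)‖ ≤ (n + 1) * (C * S ^ n) := by
        have h2 : ∀ k ∈ Finset.range (n + 1), ‖q k * co q (n - k)‖ ≤ C * S ^ n := by
          intro k hk
          rw [Finset.mem_range] at hk
          rw [norm_mul]
          calc ‖q k‖ * ‖co q (n - k)‖ ≤ (C * R ^ k) * S ^ (n - k) := by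
                apply mul_le_mul (hq k) (ih (n - k) (by omega)) (norm_nonneg _) (by positivity)
            _ ≤ (C * S ^ k) * S ^ (n - k) := by
                apply mul_le_mul_of_nonneg_right _ (by positivity)
                apply mul_le_mul_of_nonneg_left _ hC.le
                exact pow_le_pow_left₀ hR.le hSR k
            _ = C * S ^ n := by
                rw [mul_assoc, ← pow_add]
                congr 2
                omega
        refine (norm_sum_le_of_le _ h2).trans ?_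
        rw [Finset.sum_const, Finset.card_range, nsmul_eq_mul]
        push_cast
        exact le_rfl
      have h3 : ‖-(1 / 2) / (((n : ℂ) + 2) * ((n : ℂ) + 1))‖ = 1 / 2 / (((n : ℝ) + 2) * ((n : ℝ) + 1)) := by
        rw [norm_div, norm_neg, norm_mul]
        have h4 : ‖(n : ℂ) + 2‖ = (n : ℝ) + 2 := by
          have : (n : ℂ) + 2 = (((n : ℝ) + 2 : ℝ) : ℂ) := by push_cast; rfl
          rw [this, norm_real, Real.norm_of_nonneg (by positivity)]
        have h5 : ‖(n : ℂ) + 1‖ = (n : ℝ) + 1 := by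
          have : (n : ℂ) + 1 = (((n : ℝ) + 1 : ℝ) : ℂ) := by push_cast; rfl
          rw [this, norm_real, Real.norm_of_nonneg (by positivity)]
        rw [h4, h5]
        norm_num
      rw [h3]
      have hSn : 0 < S ^ n := by positivity
      have hn : (0 : ℝ) ≤ n := Nat.cast_nonneg n
      calc 1 / 2 / (((n : ℝ) + 2) * ((n : ℝ) + 1)) *
            ‖∑ k ∈ Finset.range (n + 1), q k * co q (n - k)‖
          ≤ 1 / 2 / (((n : ℝ) + 2) * ((n : ℝ) + 1)) * ((n + 1) * (C * S ^ n)) := by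
            apply mul_le_mul_of_nonneg_left h1 (by positivity)
        _ = 1 / 2 / ((n : ℝ) + 2) * (C * S ^ n) := by
            field_simp
        _ ≤ 1 * (C * S ^ n) := by
            apply mul_le_mul_of_nonneg_right _ (by positivity)
            rw [div_div, div_le_one (by positivity)]
            linarith
        _ ≤ S ^ (n + 2) := by
            rw [one_mul, pow_add, mul_comm]
            apply mul_le_mul_of_nonneg_left _ hSn.le
            nlinarith

/-- the second derivative of a power series -/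
lemma pser {a : ℕ → ℂ} {S ρ : ℝ} (ha : ∀ n, ‖a n‖ ≤ S ^ n) (hS0 : 0 < S) (hρ0 : 0 < ρ)
    (hSρ : S * ρ = 1 / 2) {v : ℂ → ℂ} (hv : ∀ w, v w = ∑' n, a n * w ^ n) :
    (∀ w ∈ ball (0 : ℂ) ρ, Summable fun n => ‖a n * w ^ n‖) ∧
    DifferentiableOn ℂ v (ball 0 ρ) ∧ ∀ w ∈ ball (0 : ℂ) ρ,
      HasSum (fun n : ℕ => a (n + 2) * (((n : ℂ) + 2) * (((n : ℂ) + 1) * w ^ n)))
        (deriv (deriv v) w) := by
  have hv' : v = fun w => ∑' n, a n * w ^ n := funext hv
  have hsum : Summable fun n : ℕ => ((1 : ℝ) / 2) ^ n := summable_geometric_two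
  have hb : ∀ n : ℕ, ∀ w ∈ ball (0 : ℂ) ρ, ‖a n * w ^ n‖ ≤ (1 / 2) ^ n := by
    intro n w hw
    rw [mem_ball_zero_iff] at hw
    have h1 : ((1 : ℝ) / 2) ^ n = S ^ n * ρ ^ n := by rw [← hSρ, mul_pow]
    rw [norm_mul, norm_pow, h1]
    exact mul_le_mul (ha n) (pow_le_pow_left₀ (norm_nonneg _) hw.le n) (by positivity)
      (by positivity)
  have hd1 : ∀ (n : ℕ) (w : ℂ), HasDerivAt (fun w => a n * w ^ n)
      (a n * (n * w ^ (n - 1))) w := fun n w => (hasDerivAt_pow n w).const_mul _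
  have hd2 : ∀ (n : ℕ) (w : ℂ), HasDerivAt (fun w => a n * (n * w ^ (n - 1)))
      (a n * (n * (((n - 1 : ℕ) : ℂ) * w ^ (n - 1 - 1)))) w := fun n w =>
    ((hasDerivAt_pow (n - 1) w).const_mul _).const_mul _
  have hD : DifferentiableOn ℂ v (ball 0 ρ) := by
    rw [hv']
    exact differentiableOn_tsum_of_summable_norm hsum
      (fun n => fun w _ => (hd1 n w).differentiableAt.differentiableWithinAt) isOpen_ball hb
  have hs1 : ∀ w ∈ ball (0 : ℂ) ρ, HasSum (fun n => a n * (n * w ^ (n - 1))) (deriv v w) := by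
    intro w hw
    have h1 := hasSum_deriv_of_summable_norm hsum
      (fun n => fun w _ => (hd1 n w).differentiableAt.differentiableWithinAt) isOpen_ball hb hw
    rw [hv']
    refine h1.congr_fun ?_
    intro n
    exact (hd1 n w).deriv.symm
  have hsum2 : Summable fun n : ℕ => (2 * S) * ((n : ℝ) ^ 1 * (1 / 2) ^ n) := by
    have h1 : ‖(1 / 2 : ℝ)‖ < 1 := by
      rw [Real.norm_of_nonneg (by norm_num)]
      norm_num
    have h2 := summable_pow_mul_geometric_of_norm_lt_one 1 h1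
    exact Summable.mul_left (2 * S) h2
  have hb2 : ∀ n : ℕ, ∀ w ∈ ball (0 : ℂ) ρ, ‖a n * (n * w ^ (n - 1))‖ ≤
      (2 * S) * ((n : ℝ) ^ 1 * (1 / 2) ^ n) := by
    intro n w hw
    rw [mem_ball_zero_iff] at hw
    rcases Nat.eq_zero_or_pos n with rfl | hn
    · simp
    · obtain ⟨m, rfl⟩ : ∃ m, n = m + 1 := ⟨n - 1, by omega⟩
      rw [norm_mul, norm_mul, norm_pow, Nat.add_sub_cancel, norm_natCast]
      have h1 : ((1 : ℝ) / 2) ^ (m + 1) = S ^ m * ρ ^ m * (1 / 2) := by
        rw [← hSρ, pow_succ, mul_pow]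
      calc ‖a (m + 1)‖ * (((m + 1 : ℕ) : ℝ) * ‖w‖ ^ m)
          ≤ S ^ (m + 1) * (((m + 1 : ℕ) : ℝ) * ρ ^ m) := by
            apply mul_le_mul (ha _) _ (by positivity) (by positivity)
            apply mul_le_mul_of_nonneg_left _ (by positivity)
            exact pow_le_pow_left₀ (norm_nonneg _) hw.le m
        _ = (2 * S) * (((m + 1 : ℕ) : ℝ) ^ 1 * (1 / 2) ^ (m + 1)) := by
            rw [h1, pow_one, pow_succ]
            ring
  have hs2 : ∀ w ∈ ball (0 : ℂ) ρ,
      HasSum (fun n => a n * (n * (((n - 1 : ℕ) : ℂ) * w ^ (n - 1 - 1)))) (deriv (deriv v) w) := by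
    intro w hw
    have h1 := hasSum_deriv_of_summable_norm hsum2
      (fun n => fun w _ => (hd2 n w).differentiableAt.differentiableWithinAt) isOpen_ball hb2 hw
    have h2 : (fun w => ∑' n : ℕ, a n * (n * w ^ (n - 1))) =ᶠ[𝓝 w] deriv v := by
      filter_upwards [isOpen_ball.mem_nhds hw] with x hx
      exact (hs1 x hx).tsum_eq
    rw [h2.deriv_eq] at h1
    refine h1.congr_fun ?_
    intro n
    exact (hd2 n w).deriv.symm
  refine ⟨fun w hw => Summable.of_nonneg_of_le (fun _ => norm_nonneg _) (fun n => hb n w hw) hsum,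
    hD, fun w hw => ?_⟩
  have h2 := (hasSum_nat_add_iff' 2).2 (hs2 w hw)
  have h3 : ∑ i ∈ Finset.range 2, a i * ((i : ℂ) * (((i - 1 : ℕ) : ℂ) * w ^ (i - 1 - 1)))
      = 0 := by
    rw [Finset.sum_range_succ, Finset.sum_range_succ]
    simp
  rw [h3, sub_zero] at h2
  refine h2.congr_fun ?_
  intro n
  have e1 : n + 2 - 1 = n + 1 := by omega
  have e2 : n + 2 - 1 - 1 = n := by omega
  rw [e2, e1]
  push_cast
  ring

/-- the linear equation at the origin -/
lemma ode0 {q : ℕ → ℂ} {C R : ℝ} (hC : 0 < C) (hR : 0 < R) (hq : ∀ k, ‖q k‖ ≤ C * R ^ k) :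
    ∃ (ρ : ℝ) (v : ℂ → ℂ), 0 < ρ ∧ DifferentiableOn ℂ v (ball 0 ρ) ∧ v 0 = 1 ∧
      ∀ w ∈ ball (0 : ℂ) ρ, deriv (deriv v) w = -(1 / 2) * (∑' k, q k * w ^ k) * v w := by
  obtain ⟨S, hS⟩ : ∃ S : ℝ, S = max 1 (max R C) := ⟨_, rfl⟩
  have hS1 : 1 ≤ S := by rw [hS]; exact le_max_left _ _
  have hSR : R ≤ S := by rw [hS]; exact (le_max_left _ _).trans (le_max_right _ _)
  have hSC : C ≤ S := by rw [hS]; exact (le_max_right _ _).trans (le_max_right _ _)
  have hS0 : 0 < S := by linarith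
  obtain ⟨a, ha0, hrec, hco⟩ : ∃ a : ℕ → ℂ, a 0 = 1 ∧ (∀ n, a (n + 2) =
      -(1 / 2) / ((n + 2) * (n + 1)) * ∑ k ∈ Finset.range (n + 1), q k * a (n - k)) ∧
      ∀ n, ‖a n‖ ≤ S ^ n := ⟨co q, co_zero q, co_two q, co_bound hC hR hq hS1 hSR hSC⟩
  obtain ⟨ρ, hρ⟩ : ∃ ρ : ℝ, ρ = 1 / (2 * S) := ⟨_, rfl⟩
  have hρ0 : 0 < ρ := by rw [hρ]; positivity
  have hSρ : S * ρ = 1 / 2 := by rw [hρ]; field_simp
  obtain ⟨v, hv⟩ : ∃ v : ℂ → ℂ, ∀ w, v w = ∑' n, a n * w ^ n := ⟨_, fun _ => rfl⟩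
  obtain ⟨n1, hD, hs⟩ := pser hco hS0 hρ0 hSρ hv
  refine ⟨ρ, v, hρ0, hD, ?_, ?_⟩
  · rw [hv, tsum_eq_single 0]
    · rw [ha0, pow_zero, mul_one]
    · intro n hn
      rw [zero_pow hn, mul_zero]
  · intro w hw
    have hw' := mem_ball_zero_iff.1 hw
    have n2 : Summable fun n => ‖q n * w ^ n‖ := by
      refine Summable.of_nonneg_of_le (fun _ => norm_nonneg _) (fun n => ?_)
        (summable_geometric_two.mul_left C)
      have h1 : ((1 : ℝ) / 2) ^ n = S ^ n * ρ ^ n := by rw [← hSρ, mul_pow]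
      rw [norm_mul, norm_pow, h1]
      calc ‖q n‖ * ‖w‖ ^ n ≤ (C * R ^ n) * ρ ^ n :=
            mul_le_mul (hq n) (pow_le_pow_left₀ (norm_nonneg _) hw'.le n) (by positivity)
              (by positivity)
        _ ≤ (C * S ^ n) * ρ ^ n := by
            apply mul_le_mul_of_nonneg_right _ (by positivity)
            apply mul_le_mul_of_nonneg_left _ hC.le
            exact pow_le_pow_left₀ hR.le hSR n
        _ = C * (S ^ n * ρ ^ n) := by ring
    rw [← (hs w hw).tsum_eq, mul_assoc, hv,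
      tsum_mul_tsum_eq_tsum_sum_range_of_summable_norm n2 (n1 w hw), ← tsum_mul_left]
    congr 1
    funext n
    have e6 : ∑ k ∈ Finset.range (n + 1), q k * w ^ k * (a (n - k) * w ^ (n - k)) =
        w ^ n * ∑ k ∈ Finset.range (n + 1), q k * a (n - k) := by
      rw [Finset.mul_sum]
      apply Finset.sum_congr rfl
      intro k hk
      rw [Finset.mem_range] at hk
      have e5 : w ^ n = w ^ k * w ^ (n - k) := by
        rw [← pow_add]
        congr 1
        omega
      rw [e5]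
      ring
    rw [e6, hrec]
    have e3 : (n : ℂ) + 1 ≠ 0 := by exact_mod_cast Nat.succ_ne_zero n
    have e4 : (n : ℂ) + 2 ≠ 0 := by exact_mod_cast (by omega : n + 2 ≠ 0)
    field_simp

/-- the linear equation -/
lemma ode_lin {Q : ℂ → ℂ} {y : ℂ} (hQ : AnalyticAt ℂ Q y) :
    ∃ (δ : ℝ) (u : ℂ → ℂ), 0 < δ ∧ DifferentiableOn ℂ u (ball y δ) ∧ u y = 1 ∧
      ∀ w ∈ ball y δ, deriv (deriv u) w = -(1 / 2) * Q w * u w := by
  obtain ⟨p, hp⟩ := hQ
  obtain ⟨C, R, hC, hR, hpb⟩ := p.le_mul_pow_of_radius_pos hp.radius_pos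
  have hq : ∀ k, ‖p.coeff k‖ ≤ C * R ^ k := by
    intro k
    rw [← p.norm_apply_eq_norm_coef]
    exact hpb k
  obtain ⟨ρ, v, hρ, hv, hv0, hv2⟩ := ode0 hC hR hq
  have h1 := hp.eventually_hasSum
  obtain ⟨ε, hε, h2⟩ := Metric.eventually_nhds_iff_ball.1 h1
  have hmem : ∀ w ∈ ball y (min ρ ε), w - y ∈ ball (0 : ℂ) ρ ∧ w - y ∈ ball (0 : ℂ) ε := by
    intro w hw
    rw [mem_ball, dist_eq_norm] at hw
    rw [mem_ball_zero_iff, mem_ball_zero_iff]
    exact ⟨hw.trans_le (min_le_left _ _), hw.trans_le (min_le_right _ _)⟩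
  refine ⟨min ρ ε, fun w => v (w - y), lt_min hρ hε, ?_, ?_, ?_⟩
  · exact hv.comp (by fun_prop) fun w hw => (hmem w hw).1
  · simp only [sub_self]
    exact hv0
  · intro w hw
    have e1 : deriv (fun w => v (w - y)) = fun w => deriv v (w - y) := by
      funext x
      exact deriv_comp_sub_const v y x
    have e2 : deriv (deriv (fun w => v (w - y))) w = deriv (deriv v) (w - y) := by
      rw [e1]
      exact deriv_comp_sub_const (deriv v) y w
    rw [e2, hv2 _ (hmem w hw).1]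
    have h3 := (h2 _ (hmem w hw).2).tsum_eq
    have h4 : y + (w - y) = w := by ring
    rw [h4] at h3
    rw [← h3]
    congr 3
    funext n
    rw [FormalMultilinearSeries.apply_eq_pow_smul_coeff, smul_eq_mul, mul_comm]

theorem ode : S_ODE := by
  intro Q y hQ
  obtain ⟨δ, u, hδ, hu, hu0, hu2⟩ := ode_lin hQ
  have hy : y ∈ ball y δ := mem_ball_self hδ
  have hc : ContinuousAt u y := (hu.differentiableAt (isOpen_ball.mem_nhds hy)).continuousAt
  have h1 : ∀ᶠ w in 𝓝 y, u w ≠ 0 := hc.eventually_ne (by rw [hu0]; exact one_ne_zero)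
  obtain ⟨ε, hε, h2⟩ := Metric.eventually_nhds_iff_ball.1 h1
  obtain ⟨δ', hδ'⟩ : ∃ δ' : ℝ, δ' = min δ ε := ⟨_, rfl⟩
  have hδ'0 : 0 < δ' := by rw [hδ']; exact lt_min hδ hε
  have hs1 : ball y δ' ⊆ ball y δ := ball_subset_ball (by rw [hδ']; exact min_le_left _ _)
  have hne : ∀ w ∈ ball y δ', u w ≠ 0 := fun w hw =>
    h2 w (ball_subset_ball (by rw [hδ']; exact min_le_right _ _) hw)
  have hud : DifferentiableOn ℂ u (ball y δ') := hu.mono hs1
  have hu1d : DifferentiableOn ℂ (deriv u) (ball y δ') := hud.deriv isOpen_ball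
  have hg : DifferentiableOn ℂ (fun w => (u w ^ 2)⁻¹) (ball y δ') :=
    (hud.pow 2).inv fun w hw => pow_ne_zero 2 (hne w hw)
  obtain ⟨f, hf⟩ := hg.isExactOn_ball
  -- injectivity near `y`
  have hy' : y ∈ ball y δ' := mem_ball_self hδ'0
  have han : AnalyticAt ℂ f y := by
    have h3 : DifferentiableOn ℂ f (ball y δ') := fun w hw =>
      (hf w hw).differentiableAt.differentiableWithinAt
    exact h3.analyticAt (isOpen_ball.mem_nhds hy')
  have hst : HasStrictDerivAt f (deriv f y) y := han.hasStrictDerivAt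
  have hf'y : deriv f y ≠ 0 := by
    rw [(hf y hy').deriv]
    exact inv_ne_zero (pow_ne_zero 2 (hne y hy'))
  obtain ⟨s, hs, hinj⟩ : ∃ s ∈ 𝓝 y, InjOn f s := by
    have h4 := hst.hasStrictFDerivAt_equiv hf'y
    exact ⟨(h4.toOpenPartialHomeomorph f).source,
      (h4.toOpenPartialHomeomorph f).open_source.mem_nhds h4.mem_toOpenPartialHomeomorph_source,
      (h4.toOpenPartialHomeomorph f).injOn⟩
  obtain ⟨η, hη, hηs⟩ := Metric.mem_nhds_iff.1 hs
  obtain ⟨r, hr⟩ : ∃ r : ℝ, r = min δ' η := ⟨_, rfl⟩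
  have hs2 : ball y r ⊆ ball y δ' := ball_subset_ball (by rw [hr]; exact min_le_left _ _)
  refine ⟨r, f, by rw [hr]; exact lt_min hδ'0 hη, fun w hw =>
    (hf w (hs2 hw)).differentiableAt.differentiableWithinAt, hinj.mono ?_, ?_⟩
  · exact (ball_subset_ball (by rw [hr]; exact min_le_right _ _)).trans hηs
  · intro w hw
    have hw' := hs2 hw
    have hn := hne w hw'
    have d1 : ∀ x ∈ ball y δ', deriv f x = (u x ^ 2)⁻¹ := fun x hx => (hf x hx).deriv
    have du : ∀ x ∈ ball y δ', HasDerivAt u (deriv u x) x := fun x hx =>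
      (hud.differentiableAt (isOpen_ball.mem_nhds hx)).hasDerivAt
    have du1 : ∀ x ∈ ball y δ', HasDerivAt (deriv u) (deriv (deriv u) x) x := fun x hx =>
      (hu1d.differentiableAt (isOpen_ball.mem_nhds hx)).hasDerivAt
    have d2' : ∀ x ∈ ball y δ', HasDerivAt (fun x => (u x ^ 2)⁻¹)
        (-2 * deriv u x / u x ^ 3) x := by
      intro x hx
      have h3 := ((du x hx).pow 2).inv (pow_ne_zero 2 (hne x hx))
      have h4 := hne x hx
      refine h3.congr_deriv ?_
      simp only [Pi.pow_apply]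
      field_simp
      push_cast
      ring
    have d2 : ∀ x ∈ ball y δ', deriv (deriv f) x = -2 * deriv u x / u x ^ 3 := by
      intro x hx
      have h3 : deriv f =ᶠ[𝓝 x] fun x => (u x ^ 2)⁻¹ := by
        filter_upwards [isOpen_ball.mem_nhds hx] with z hz
        exact d1 z hz
      rw [h3.deriv_eq]
      exact (d2' x hx).deriv
    have d3 : deriv (deriv (deriv f)) w =
        (-2 * deriv (deriv u) w * u w ^ 3 + 6 * deriv u w ^ 2 * u w ^ 2) / u w ^ 6 := by
      have h3 : deriv (deriv f) =ᶠ[𝓝 w] fun x => -2 * deriv u x / u x ^ 3 := by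
        filter_upwards [isOpen_ball.mem_nhds hw'] with z hz
        exact d2 z hz
      rw [h3.deriv_eq]
      have h4 := ((du1 w hw').const_mul (-2)).div ((du w hw').pow 3) (pow_ne_zero 3 hn)
      have h5 := h4.deriv
      have h6 : deriv (fun x => -2 * deriv u x / u x ^ 3) w = _ := h5
      rw [h6]
      simp only [Pi.pow_apply]
      field_simp
      push_cast
      ring
    constructor
    · rw [d1 w hw']
      exact inv_ne_zero (pow_ne_zero 2 hn)
    · unfold Sw
      rw [d3, d2 w hw', d1 w hw', hu2 w (hs1 hw')]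
      field_simp
      ring

end Pool.Agent.E8helper38.SQ
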